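import Pool.Agent.Y461.KM.Stm

/-!
# Project KM: the Euler characteristic of the complex in each polynomial degree
-/

set_option autoImplicit false

namespace Pool.Agent.Y785.KM

open MvPolynomial
open Pool.Agent.Y461.KM

section

variable {n m : ℕ} (A : Matrix (Fin n) (Fin n) ℤ) (b : Fin n → Fin m → ℚ)

theorem al_hom (i : Fin n) : (al A b i).IsHomogeneous 1 := by
  unfold al
  refine IsHomogeneous.add ?_ ?_
  · exact IsHomogeneous.sum _ _ _ fun j _ => isHomogeneous_C_mul_X _ _
  · exact IsHomogeneous.sum _ _ _ fun j _ => isHomogeneous_C_mul_X _ _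

theorem rf_hom (i : Fin n) {f : Pl n m} {d : ℕ} (hf : f.IsHomogeneous d) :
    (rf A b i f).IsHomogeneous d := by
  have h := hf.aeval (fun x : Fin n ⊕ Fin m => (X x - if x = Sum.inl i then al A b i else 0 : Pl n m))
    (n := 1) (by
      intro x
      split_ifs
      · exact (isHomogeneous_X _ _).sub (al_hom A b i)
      · rw [sub_zero]
        exact isHomogeneous_X _ _)
  rw [one_mul] at h
  exact h

theorem rf_hc (i : Fin n) (k : ℕ) (f : Pl n m) :
    homogeneousComponent k (rf A b i f) = rf A b i (homogeneousComponent k f) := by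
  conv_lhs => rw [← sum_homogeneousComponent f, map_sum, map_sum]
  have h : ∀ d ∈ Finset.range (f.totalDegree + 1),
      homogeneousComponent k (rf A b i (homogeneousComponent d f)) =
        if d = k then rf A b i (homogeneousComponent d f) else 0 := by
    intro d _
    have hmem : rf A b i (homogeneousComponent d f) ∈ homogeneousSubmodule (Fin n ⊕ Fin m) ℚ d := by
      rw [mem_homogeneousSubmodule]
      exact rf_hom A b i (homogeneousComponent_isHomogeneous _ _)
    rw [homogeneousComponent_of_mem hmem]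
    simp only [eq_comm]
  rw [Finset.sum_congr rfl h, Finset.sum_ite_eq']
  split_ifs with hk
  · rfl
  · rw [Finset.mem_range, not_lt] at hk
    rw [homogeneousComponent_eq_zero _ _ (by omega), map_zero]

theorem Inv_hc (J : Finset (Fin n)) (k : ℕ) {f : Pl n m} (hf : f ∈ Inv A b J) :
    homogeneousComponent k f ∈ Inv A b J := by
  intro j hj
  rw [← rf_hc, hf j hj]

theorem hc_Cp (p k : ℕ) {Φ : Cch n m} (h : Φ ∈ Cp A b p) : hc k Φ ∈ Cp A b p := by
  obtain ⟨h1, h2⟩ := h
  refine ⟨fun c => ⟨fun hc' => ?_, Inv_hc A b _ k (h1 c).2⟩, fun c hc' => ?_⟩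
  · simp only [hc]
    rw [(h1 c).1 hc', map_zero]
  · simp only [hc]
    rw [h2 c hc', map_zero]

theorem hc_sign (k a : ℕ) (f : Pl n m) :
    homogeneousComponent k ((-1) ^ a * f) = (-1) ^ a * homogeneousComponent k f := by
  rcases neg_one_pow_eq_or (Pl n m) a with h | h <;> rw [h] <;> simp

theorem dd_hc (k : ℕ) (Φ : Cch n m) : ddL A b (hc k Φ) = hc k (ddL A b Φ) := by
  funext c
  change dd A b (hc k Φ) c = homogeneousComponent k (dd A b Φ c)
  unfold dd
  split_ifs with h
  · rw [map_sum]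
    refine Finset.sum_congr rfl fun J _ => ?_
    rw [hc_sign]
    rfl
  · rw [map_zero]

theorem mem_hk {ι σ : Type} (k : ℕ) (Φ : ι → MvPolynomial σ ℚ) :
    Φ ∈ hk ι σ k ↔ hc k Φ = Φ := by
  unfold hk
  rw [Submodule.mem_pi]
  constructor
  · intro h
    funext c
    have := h c (Set.mem_univ _)
    unfold hc
    rw [homogeneousComponent_of_mem this, if_pos rfl]
  · intro h c _
    rw [← h]
    exact homogeneousComponent_mem _ _

theorem dd_mem_hk (k : ℕ) {Φ : Cch n m}
    (h : Φ ∈ hk (Finset (Finset (Fin n))) (Fin n ⊕ Fin m) k) :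
    ddL A b Φ ∈ hk (Finset (Finset (Fin n))) (Fin n ⊕ Fin m) k := by
  rw [mem_hk] at h ⊢
  rw [← dd_hc, h]

theorem map_inf (p k : ℕ) :
    Submodule.map (ddL A b) (Cp A b p ⊓ hk (Finset (Finset (Fin n))) (Fin n ⊕ Fin m) k) =
      Bp A b (p + 1) ⊓ hk (Finset (Finset (Fin n))) (Fin n ⊕ Fin m) k := by
  ext Ψ
  rw [Submodule.mem_map, Submodule.mem_inf]
  constructor
  · rintro ⟨Φ, hΦ, rfl⟩
    rw [Submodule.mem_inf] at hΦ
    exact ⟨Submodule.mem_map_of_mem hΦ.1, dd_mem_hk A b k hΦ.2⟩
  · rintro ⟨h1, h2⟩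
    obtain ⟨Θ, hΘ, rfl⟩ := Submodule.mem_map.1 h1
    rw [mem_hk] at h2
    refine ⟨hc k Θ, Submodule.mem_inf.2 ⟨hc_Cp A b p k hΘ, ?_⟩, by rw [dd_hc, h2]⟩
    rw [mem_hk]
    funext c
    change homogeneousComponent k (homogeneousComponent k (Θ c)) = homogeneousComponent k (Θ c)
    rw [homogeneousComponent_of_mem (homogeneousComponent_mem _ _), if_pos rfl]

end

/-- families with values in given submodules -/
noncomputable def piEq {ι : Type} {M : Type} [AddCommGroup M] [Module ℚ M]
    (S : ι → Submodule ℚ M) : ↥(Submodule.pi Set.univ S) ≃ₗ[ℚ] (∀ i, S i) where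
  toFun Φ i := ⟨Φ.1 i, Φ.2 i (Set.mem_univ _)⟩
  invFun Ψ := ⟨fun i => (Ψ i).1, fun i _ => (Ψ i).2⟩
  left_inv _ := rfl
  right_inv _ := rfl
  map_add' _ _ := rfl
  map_smul' _ _ := rfl

theorem finrank_pi_sub {ι : Type} [Fintype ι] {M : Type} [AddCommGroup M] [Module ℚ M]
    (S : ι → Submodule ℚ M) [∀ i, Module.Finite ℚ (S i)] :
    Module.finrank ℚ ↥(Submodule.pi Set.univ S) = ∑ i, Module.finrank ℚ (S i) := by
  rw [LinearEquiv.finrank_eq (piEq S), Module.finrank_pi_fintype]

instance hom_fin (σ : Type) [Finite σ] (k : ℕ) :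
    Module.Finite ℚ ↥(homogeneousSubmodule σ ℚ k) :=
  Module.Finite.iff_fg.2 (homogeneousSubmodule_fg σ ℚ k)

instance hk_fin (ι σ : Type) [Finite ι] [Finite σ] (k : ℕ) : Module.Finite ℚ ↥(hk ι σ k) := by
  have := Fintype.ofFinite ι
  exact Module.Finite.equiv (piEq (fun _ : ι => homogeneousSubmodule σ ℚ k)).symm

theorem fin_inf {V : Type} [AddCommGroup V] [Module ℚ V] (W H : Submodule ℚ V)
    [Module.Finite ℚ H] : Module.Finite ℚ ↥(W ⊓ H) :=
  Submodule.finiteDimensional_inf_right W H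

/-- rank-nullity on a submodule -/
theorem rank_null {V : Type} [AddCommGroup V] [Module ℚ V] (f : V →ₗ[ℚ] V) (W : Submodule ℚ V)
    [Module.Finite ℚ W] :
    Module.finrank ℚ W = Module.finrank ℚ ↥(W ⊓ LinearMap.ker f) +
      Module.finrank ℚ ↥(Submodule.map f W) := by
  have h := LinearMap.finrank_range_add_finrank_ker (f.domRestrict W)
  have e1 : LinearMap.range (f.domRestrict W) = Submodule.map f W := by
    rw [LinearMap.range_domRestrict]
  have e2 : Submodule.map W.subtype (LinearMap.ker (f.domRestrict W)) = W ⊓ LinearMap.ker f := by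
    ext x
    simp only [Submodule.mem_map, Submodule.mem_inf, LinearMap.mem_ker, Submodule.subtype_apply]
    constructor
    · rintro ⟨y, hy, rfl⟩
      exact ⟨y.2, hy⟩
    · rintro ⟨h1, h2⟩
      exact ⟨⟨x, h1⟩, h2, rfl⟩
  rw [e1, ← Submodule.finrank_map_subtype_eq W, e2] at h
  omega

section

variable {n m : ℕ} (A : Matrix (Fin n) (Fin n) ℤ) (b : Fin n → Fin m → ℚ)

theorem step (p k : ℕ) :
    Module.finrank ℚ ↥(Cp A b p ⊓ hk (Finset (Finset (Fin n))) (Fin n ⊕ Fin m) k) =
      Module.finrank ℚ ↥(Zp A b p ⊓ hk (Finset (Finset (Fin n))) (Fin n ⊕ Fin m) k) +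
      Module.finrank ℚ ↥(Bp A b (p + 1) ⊓ hk (Finset (Finset (Fin n))) (Fin n ⊕ Fin m) k) := by
  have := fin_inf (Cp A b p) (hk (Finset (Finset (Fin n))) (Fin n ⊕ Fin m) k)
  have e : Cp A b p ⊓ hk (Finset (Finset (Fin n))) (Fin n ⊕ Fin m) k ⊓ LinearMap.ker (ddL A b) =
      Zp A b p ⊓ hk (Finset (Finset (Fin n))) (Fin n ⊕ Fin m) k := by
    unfold Zp
    ext x
    simp only [Submodule.mem_inf]
    tauto
  rw [rank_null (ddL A b), map_inf, e]

open Classical in
theorem Cp_inf (p k : ℕ) :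
    Cp A b p ⊓ hk (Finset (Finset (Fin n))) (Fin n ⊕ Fin m) k =
      Submodule.pi Set.univ (fun c : Finset (Finset (Fin n)) =>
        if Smp A b c ∧ c.card = p + 1 then invk A b (c.inf id) k else ⊥) := by
  ext Φ
  rw [Submodule.mem_inf, Submodule.mem_pi]
  constructor
  · rintro ⟨⟨h1, h2⟩, h3⟩ c _
    split_ifs with h
    · exact ⟨(h1 c).2, (Submodule.mem_pi.1 h3) c (Set.mem_univ _)⟩
    · rw [Submodule.mem_bot]
      rw [not_and_or] at h
      rcases h with h | h
      · exact (h1 c).1 h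
      · exact h2 c h
  · intro h
    refine ⟨⟨fun c => ⟨fun hc' => ?_, ?_⟩, fun c hc' => ?_⟩, ?_⟩
    · have := h c (Set.mem_univ _)
      rw [if_neg (fun h => hc' h.1)] at this
      exact (Submodule.mem_bot ℚ).1 this
    · have := h c (Set.mem_univ _)
      split_ifs at this with h'
      · exact this.1
      · rw [(Submodule.mem_bot ℚ).1 this]
        exact Subalgebra.zero_mem _
    · have := h c (Set.mem_univ _)
      rw [if_neg (fun h => hc' h.2)] at this
      exact (Submodule.mem_bot ℚ).1 this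
    · unfold hk
      rw [Submodule.mem_pi]
      intro c _
      have := h c (Set.mem_univ _)
      split_ifs at this with h'
      · exact this.2
      · rw [(Submodule.mem_bot ℚ).1 this]
        exact Submodule.zero_mem _

open Classical in
theorem dim_Cp (p k : ℕ) :
    Module.finrank ℚ ↥(Cp A b p ⊓ hk (Finset (Finset (Fin n))) (Fin n ⊕ Fin m) k) =
      ∑ c ∈ (Finset.univ.filter (fun c : Finset (Finset (Fin n)) => Smp A b c)).filter
        (fun c => c.card = p + 1), Module.finrank ℚ ↥(invk A b (c.inf id) k) := by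
  have : ∀ J, Module.Finite ℚ ↥(invk A b J k) := fun J => fin_inf _ _
  have : ∀ c : Finset (Finset (Fin n)), Module.Finite ℚ
      ↥(if Smp A b c ∧ c.card = p + 1 then invk A b (c.inf id) k else ⊥ :
        Submodule ℚ (Pl n m)) := by
    intro c
    by_cases h : Smp A b c ∧ c.card = p + 1
    · rw [if_pos h]
      infer_instance
    · rw [if_neg h]
      infer_instance
  rw [Cp_inf, finrank_pi_sub, Finset.filter_filter, Finset.sum_filter]
  refine Finset.sum_congr rfl fun c _ => ?_
  by_cases h : Smp A b c ∧ c.card = p + 1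
  · rw [if_pos h, if_pos h]
  · rw [if_neg h, if_neg h]
    exact finrank_bot ℚ _

theorem card_smp {c : Finset (Finset (Fin n))} (h : Smp A b c) : 1 ≤ c.card ∧ c.card ≤ n + 1 := by
  refine ⟨Finset.card_pos.2 h.1, ?_⟩
  have := Finset.card_le_card_of_injOn (s := c) (t := Finset.range (n + 1)) Finset.card
    (fun J _ => by
      simp only [Finset.coe_range, Set.mem_Iio]
      have := Finset.card_le_univ J
      rw [Fintype.card_fin] at this
      omega)
    (fun J hJ K hK hJK => by
      rcases h.2.2 J hJ K hK with h' | h'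
      · exact Finset.eq_of_subset_of_card_le h' hJK.ge
      · exact (Finset.eq_of_subset_of_card_le h' hJK.le).symm)
  rwa [Finset.card_range] at this

theorem B_top (k : ℕ) :
    Module.finrank ℚ ↥(Bp A b (n + 1) ⊓ hk (Finset (Finset (Fin n))) (Fin n ⊕ Fin m) k) = 0 := by
  have h : Bp A b (n + 1) = ⊥ := by
    rw [eq_bot_iff]
    rintro Ψ hΨ
    obtain ⟨Φ, hΦ, rfl⟩ := Submodule.mem_map.1 hΨ
    rw [Submodule.mem_bot]
    funext c
    change dd A b Φ c = 0
    unfold dd
    split_ifs with hs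
    · refine Finset.sum_eq_zero fun J hJ => ?_
      have h1 := (card_smp A b hs).2
      have h2 := (card_smp A b hs).1
      rw [hΦ.2, mul_zero]
      rw [Finset.card_erase_of_mem hJ]
      omega
    · rfl
  rw [h, bot_inf_eq]
  exact finrank_bot ℚ _

theorem B_zero (k : ℕ) :
    Module.finrank ℚ ↥(Bp A b 0 ⊓ hk (Finset (Finset (Fin n))) (Fin n ⊕ Fin m) k) = 0 := by
  change Module.finrank ℚ ↥((⊥ : Submodule ℚ (Cch n m)) ⊓ _) = 0
  rw [bot_inf_eq]
  exact finrank_bot ℚ _

end

theorem tele (N : ℕ) (z c d : ℕ → ℚ) (h : ∀ p, c p = z p + d (p + 1)) :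
    ∑ p ∈ Finset.range N, (-1 : ℚ) ^ p * (z p - d p) =
      ∑ p ∈ Finset.range N, (-1 : ℚ) ^ p * c p - d 0 + (-1) ^ N * d N := by
  induction N with
  | zero => simp
  | succ N ih =>
    rw [Finset.sum_range_succ, ih, Finset.sum_range_succ, h N, pow_succ]
    ring

/-- **EUL** -/
theorem eul : S_EUL := by
  classical
  intro n m A b k
  have h := tele (n + 1)
    (fun p => (Module.finrank ℚ ↥(Zp A b p ⊓ hk (Finset (Finset (Fin n))) (Fin n ⊕ Fin m) k) : ℚ))
    (fun p => (Module.finrank ℚ ↥(Cp A b p ⊓ hk (Finset (Finset (Fin n))) (Fin n ⊕ Fin m) k) : ℚ))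
    (fun p => (Module.finrank ℚ ↥(Bp A b p ⊓ hk (Finset (Finset (Fin n))) (Fin n ⊕ Fin m) k) : ℚ))
    (fun p => by
      rw [step]
      push_cast
      rfl)
  simp only [B_zero, B_top] at h
  rw [h]
  simp only [Nat.cast_zero, sub_zero, mul_zero, add_zero]
  have h1 : ∀ p, (-1 : ℚ) ^ p *
      (Module.finrank ℚ ↥(Cp A b p ⊓ hk (Finset (Finset (Fin n))) (Fin n ⊕ Fin m) k) : ℚ) =
      ∑ c ∈ (Finset.univ.filter (fun c : Finset (Finset (Fin n)) => Smp A b c)).filter
        (fun c => c.card - 1 = p), (-1 : ℚ) ^ (c.card + 1) *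
          (Module.finrank ℚ ↥(invk A b (c.inf id) k) : ℚ) := by
    intro p
    rw [dim_Cp, Nat.cast_sum, Finset.mul_sum]
    have e : (Finset.univ.filter (fun c : Finset (Finset (Fin n)) => Smp A b c)).filter
        (fun c => c.card = p + 1) =
        (Finset.univ.filter (fun c : Finset (Finset (Fin n)) => Smp A b c)).filter
        (fun c => c.card - 1 = p) := by
      refine Finset.filter_congr fun c hc' => ?_
      rw [Finset.mem_filter] at hc'
      have := (card_smp A b hc'.2).1
      omega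
    rw [← e]
    refine Finset.sum_congr rfl fun c hc' => ?_
    rw [Finset.mem_filter] at hc'
    rw [hc'.2, pow_add, pow_add]
    norm_num
  rw [Finset.sum_congr rfl fun p _ => h1 p]
  refine Finset.sum_fiberwise_of_maps_to (fun c hc' => ?_) _
  rw [Finset.mem_filter] at hc'
  have := card_smp A b hc'.2
  rw [Finset.mem_range]
  omega

end Pool.Agent.Y785.KM
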